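import Pool.Agent.Helper25.RC.Classes

/-!
Chains of moduli: a set which is not null and whose number of representations is bounded in mean
square satisfies `∑ m j / ν (m j) ^ 2 < ∞`, `ν q` the number of residue classes modulo `q` in which
it is not null.
-/

set_option autoImplicit false

open Finset Filter

namespace Pool.Agent.Helper3.RC

open Pool.Agent.Helper25.RC

theorem geo_low (i : ℕ) : ∀ n, n ≤ i + 1 →
    ∑ j ∈ range n, ((3 : ℝ) / 4) ^ ((i - j) + (j - i)) ≤ 4 * (3 / 4) ^ (i + 1 - n) := by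
  intro n
  induction n with
  | zero => intro _; simp only [range_zero, sum_empty]; positivity
  | succ n ih =>
    intro hn
    rw [sum_range_succ]
    have h1 := ih (by omega)
    have h2 : (i - n) + (n - i) = i - n := by omega
    have h3 : i + 1 - n = (i - n) + 1 := by omega
    have h4 : i + 1 - (n + 1) = i - n := by omega
    rw [h2, h4]
    rw [h3, pow_succ] at h1
    linarith

theorem geo_all (i : ℕ) (n : ℕ) :
    ∑ j ∈ range n, ((3 : ℝ) / 4) ^ ((i - j) + (j - i)) ≤ 7 := by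
  rcases Nat.lt_or_ge (i + 1) n with h | h
  · obtain ⟨k, rfl⟩ := Nat.exists_eq_add_of_lt h
    have h1 : ∀ k : ℕ, ∑ j ∈ range (i + 1 + k), ((3 : ℝ) / 4) ^ ((i - j) + (j - i)) ≤
        7 - 3 * (3 / 4) ^ k := by
      intro k
      induction k with
      | zero =>
        have := geo_low i (i + 1) le_rfl
        simp only [Nat.sub_self, pow_zero, mul_one] at this
        simp only [add_zero, pow_zero]
        linarith
      | succ k ih =>
        rw [← add_assoc, sum_range_succ]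
        have h2 : (i - (i + 1 + k)) + (i + 1 + k - i) = k + 1 := by omega
        rw [h2, pow_succ]
        have : (0 : ℝ) < (3 / 4) ^ k := by positivity
        linarith
    have := h1 (k + 1)
    have h3 : (0 : ℝ) < (3 / 4) ^ (k + 1) := by positivity
    rw [← add_assoc] at this
    linarith
  · refine (geo_low i n h).trans ?_
    have : ((3 : ℝ) / 4) ^ (i + 1 - n) ≤ 1 := pow_le_one₀ (by norm_num) (by norm_num)
    linarith

/-- the chain condition -/
structure Chain (m : ℕ → ℕ) : Prop where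
  pos : 0 < m 0
  dvd : ∀ j, m j ∣ m (j + 1)
  two : ∀ j, 2 * m j ≤ m (j + 1)

theorem Chain.pos' {m : ℕ → ℕ} (hm : Chain m) (j : ℕ) : 0 < m j := by
  induction j with
  | zero => exact hm.pos
  | succ j ih => have := hm.two j; omega

theorem Chain.dvd_add {m : ℕ → ℕ} (hm : Chain m) (i d : ℕ) : m i ∣ m (i + d) := by
  induction d with
  | zero => exact dvd_rfl
  | succ d ih => exact ih.trans (hm.dvd (i + d))

theorem Chain.pow_le {m : ℕ → ℕ} (hm : Chain m) (i d : ℕ) : 2 ^ d * m i ≤ m (i + d) := by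
  induction d with
  | zero => simp
  | succ d ih =>
    have := hm.two (i + d)
    rw [← add_assoc, pow_succ]
    calc 2 ^ d * 2 * m i = 2 * (2 ^ d * m i) := by ring
      _ ≤ 2 * m (i + d) := by omega
      _ ≤ _ := this

theorem Chain.strictMono {m : ℕ → ℕ} (hm : Chain m) : StrictMono m :=
  strictMono_nat_of_lt_succ fun j => by
    have := hm.two j
    have := hm.pos' j
    omega

theorem pair_le {m : ℕ → ℕ} (hm : Chain m) {c : ℕ → ℝ} (i d : ℕ) :
    c i * c (i + d) * (Nat.gcd (m i) (m (i + d)) : ℝ) ≤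
      (3 / 4) ^ d * (m i * c i ^ 2 + m (i + d) * c (i + d) ^ 2) / 2 := by
  rw [Nat.gcd_eq_left (hm.dvd_add i d)]
  have h1 : (2 : ℝ) ^ d * m i ≤ m (i + d) := by exact_mod_cast hm.pow_le i d
  set r : ℝ := (3 / 4) ^ d with hr
  have hr0 : 0 < r := by positivity
  have hp : (0 : ℝ) < 2 ^ d := by positivity
  have h2 : 1 ≤ r ^ 2 * 2 ^ d := by
    have : r ^ 2 * 2 ^ d = (9 / 8) ^ d := by
      rw [hr, ← pow_mul, mul_comm d 2, pow_mul, ← mul_pow]
      norm_num
    rw [this]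
    exact one_le_pow₀ (by norm_num)
  -- m_i c_i c_j ≤ (r m_i c_i^2 + m_i c_j^2 / r)/2, m_i / r ≤ r 2^d m_i ≤ r m_j
  have h3 : (m i : ℝ) / r ≤ r * m (i + d) := by
    rw [div_le_iff₀ hr0]
    calc (m i : ℝ) = 1 * m i := by ring
      _ ≤ r ^ 2 * 2 ^ d * m i := by gcongr
      _ = r ^ 2 * (2 ^ d * m i) := by ring
      _ ≤ r ^ 2 * m (i + d) := by gcongr
      _ = r * m (i + d) * r := by ring
  have h4 : c i * c (i + d) * (m i : ℝ) ≤ (r * (m i * c i ^ 2) + (m i / r) * c (i + d) ^ 2) / 2 := by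
    have h5 : (r * (m i * c i ^ 2) + (m i / r) * c (i + d) ^ 2) / 2 - c i * c (i + d) * (m i : ℝ) =
        m i / (2 * r) * (r * c i - c (i + d)) ^ 2 := by
      field_simp
      ring
    have h6 : 0 ≤ m i / (2 * r) * (r * c i - c (i + d)) ^ 2 := by positivity
    linarith
  have h7 : (m i / r) * c (i + d) ^ 2 ≤ r * m (i + d) * c (i + d) ^ 2 := by gcongr
  linarith

theorem gcd_chain {m : ℕ → ℕ} (hm : Chain m) {c : ℕ → ℝ} (n : ℕ) :
    ∑ i ∈ range n, ∑ j ∈ range n, c i * c j * (Nat.gcd (m i) (m j) : ℝ) ≤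
      7 * ∑ i ∈ range n, m i * c i ^ 2 := by
  have h1 : ∀ i j, c i * c j * (Nat.gcd (m i) (m j) : ℝ) ≤
      (3 / 4) ^ ((i - j) + (j - i)) * (m i * c i ^ 2) / 2 +
      (3 / 4) ^ ((i - j) + (j - i)) * (m j * c j ^ 2) / 2 := by
    intro i j
    rcases le_total i j with h | h
    · obtain ⟨d, rfl⟩ := Nat.exists_eq_add_of_le h
      have := pair_le hm (c := c) i d
      have h2 : (i - (i + d)) + (i + d - i) = d := by omega
      rw [h2]
      linarith
    · obtain ⟨d, rfl⟩ := Nat.exists_eq_add_of_le h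
      have := pair_le hm (c := c) j d
      have h2 : (j + d - j) + (j - (j + d)) = d := by omega
      rw [h2, Nat.gcd_comm, mul_comm (c (j + d)) (c j)]
      linarith
  calc ∑ i ∈ range n, ∑ j ∈ range n, c i * c j * (Nat.gcd (m i) (m j) : ℝ)
      ≤ ∑ i ∈ range n, ∑ j ∈ range n, ((3 / 4) ^ ((i - j) + (j - i)) * (m i * c i ^ 2) / 2 +
      (3 / 4) ^ ((i - j) + (j - i)) * (m j * c j ^ 2) / 2) :=
        sum_le_sum fun i _ => sum_le_sum fun j _ => h1 i j
    _ = ∑ i ∈ range n, ∑ j ∈ range n, (3 / 4) ^ ((i - j) + (j - i)) * (m i * c i ^ 2) := by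
        simp only [sum_add_distrib]
        have h2 : ∑ i ∈ range n, ∑ j ∈ range n,
            (3 / 4 : ℝ) ^ ((i - j) + (j - i)) * (m j * c j ^ 2) / 2 =
            ∑ i ∈ range n, ∑ j ∈ range n,
            (3 / 4 : ℝ) ^ ((i - j) + (j - i)) * (m i * c i ^ 2) / 2 := by
          rw [sum_comm]
          refine sum_congr rfl fun i _ => sum_congr rfl fun j _ => ?_
          rw [add_comm (j - i)]
        rw [h2, ← sum_add_distrib]
        refine sum_congr rfl fun i _ => ?_
        rw [← sum_add_distrib]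
        refine sum_congr rfl fun j _ => ?_
        ring
    _ = ∑ i ∈ range n, (∑ j ∈ range n, (3 / 4 : ℝ) ^ ((i - j) + (j - i))) * (m i * c i ^ 2) := by
        refine sum_congr rfl fun i _ => ?_
        rw [sum_mul]
    _ ≤ ∑ i ∈ range n, 7 * (m i * c i ^ 2) := by
        refine sum_le_sum fun i _ => ?_
        exact mul_le_mul_of_nonneg_right (geo_all i n) (by positivity)
    _ = _ := by rw [mul_sum]

/-- **Chains.** `cong S q` is the number of pairs of elements of `S` congruent modulo `q`. -/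
theorem chain_energy (S : Finset ℕ) {x : ℕ} (hS : S ⊆ range x) {m : ℕ → ℕ} (hm : Chain m)
    {J : ℕ} (hJ : m J ≤ x) :
    ∑ j ∈ range (J + 1), (m j : ℝ) * (cong S (m j) : ℝ) ^ 2 ≤
      21 * x * ∑ n ∈ range (2 * x), (repF S n : ℝ) ^ 2 := by
  classical
  set E := ∑ n ∈ range (2 * x), (repF S n : ℝ) ^ 2 with hE
  have hE0 : 0 ≤ E := by positivity
  set Sg := ∑ j ∈ range (J + 1), (m j : ℝ) * (cong S (m j) : ℝ) ^ 2 with hSg
  have hSg0 : 0 ≤ Sg := by positivity
  have hinj : Set.InjOn m (range (J + 1) : Finset ℕ) := hm.strictMono.injective.injOn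
  have h1 := energy S hS (hm.pos' J) hJ ((range (J + 1)).image m) (by
    intro q hq
    obtain ⟨j, hj, rfl⟩ := mem_image.1 hq
    rw [mem_range] at hj
    obtain ⟨d, hd⟩ := Nat.exists_eq_add_of_le (show j ≤ J by omega)
    rw [hd]
    exact hm.dvd_add j d) (fun q => (cong S q : ℝ))
  rw [sum_image (fun a ha b hb h => hinj ha hb h)] at h1
  have h2 : ∑ j ∈ range (J + 1), (cong S (m j) : ℝ) * ((m j : ℝ) * (cong S (m j) : ℝ)) = Sg :=
    sum_congr rfl fun j _ => by ring
  have h3 : ∑ q ∈ (range (J + 1)).image m, ∑ q' ∈ (range (J + 1)).image m,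
      (cong S q : ℝ) * (cong S q' : ℝ) * (Nat.gcd q q' : ℝ) ≤ 7 * Sg := by
    rw [sum_image (fun a ha b hb h => hinj ha hb h)]
    have h4 : ∀ i ∈ range (J + 1), ∑ q' ∈ (range (J + 1)).image m,
        (cong S (m i) : ℝ) * (cong S q' : ℝ) * (Nat.gcd (m i) q' : ℝ) =
        ∑ j ∈ range (J + 1), (cong S (m i) : ℝ) * (cong S (m j) : ℝ) *
          (Nat.gcd (m i) (m j) : ℝ) := fun i _ => by
      rw [sum_image (fun a ha b hb h => hinj ha hb h)]
    rw [sum_congr rfl h4]
    exact gcd_chain hm (c := fun j => (cong S (m j) : ℝ)) (J + 1)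
  rw [h2] at h1
  have h5 : Sg ^ 2 ≤ 3 * x * E * (7 * Sg) := h1.trans (by gcongr)
  rcases hSg0.eq_or_lt with h | h
  · rw [← h]; positivity
  · have h6 : Sg * Sg ≤ (21 * x * E) * Sg := by nlinarith
    exact le_of_mul_le_mul_right h6 h

/-- the finite form: `|S|^4 ∑ m_j / |S mod m_j|^2 ≤ 21 x ∑ r_S^2` -/
theorem chain_classes (S : Finset ℕ) {x : ℕ} (hS : S ⊆ range x) {m : ℕ → ℕ} (hm : Chain m)
    {J : ℕ} (hJ : m J ≤ x) :
    (#S : ℝ) ^ 4 * ∑ j ∈ range (J + 1), (m j : ℝ) / (#(S.image (· % m j)) : ℝ) ^ 2 ≤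
      21 * x * ∑ n ∈ range (2 * x), (repF S n : ℝ) ^ 2 := by
  refine le_trans ?_ (chain_energy S hS hm hJ)
  rw [mul_sum]
  refine sum_le_sum fun j _ => ?_
  set N := #(S.image (· % m j)) with hN
  have h1 := cong_ge S (S.image (· % m j)) (m j)
  have h2 : #{n ∈ S | n % m j ∈ S.image (· % m j)} = #S := by
    congr 1
    refine filter_true_of_mem fun n hn => mem_image_of_mem _ hn
  rw [h2, ← hN] at h1
  rcases Nat.eq_zero_or_pos N with h0 | h0
  · rw [h0]; simp only [Nat.cast_zero, ne_eq, OfNat.ofNat_ne_zero, not_false_eq_true, zero_pow,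
      div_zero, mul_zero]; positivity
  · have h0' : (0 : ℝ) < N := by exact_mod_cast h0
    have h3 : ((#S : ℝ) ^ 2) ^ 2 ≤ ((N : ℝ) * (cong S (m j) : ℝ)) ^ 2 := by gcongr
    calc (#S : ℝ) ^ 4 * ((m j : ℝ) / (N : ℝ) ^ 2) = (m j : ℝ) * (((#S : ℝ) ^ 2) ^ 2 / (N : ℝ) ^ 2) := by
          ring
      _ ≤ (m j : ℝ) * (((N : ℝ) * (cong S (m j) : ℝ)) ^ 2 / (N : ℝ) ^ 2) := by gcongr
      _ = _ := by field_simp

open Classical in
/-- the number of residue classes modulo `q` in which `A` is not null -/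
noncomputable def nu (A : Set ℕ) (q : ℕ) : ℕ := #{r ∈ range q | ¬ Null (res A q r)}

open Classical in
/-- a large part of the elements is in classes which are not null -/
theorem cong_large {A : Set ℕ} {q : ℕ} (hq : 0 < q) {x : ℕ} {δ : ℝ}
    (h1 : (#{n ∈ below A x | Null (res A q (n % q))} : ℝ) ≤ δ / 2 * √x)
    (h2 : δ * √x < (#(below A x) : ℝ)) :
    ((#(below A x) : ℝ) / 2) ^ 2 ≤ nu A q * (cong (below A x) q : ℝ) := by
  set S := below A x with hS
  set R : Finset ℕ := {r ∈ range q | ¬ Null (res A q r)} with hR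
  have h3 : (#S : ℝ) / 2 ≤ (#{n ∈ S | n % q ∈ R} : ℝ) := by
    have h2' : #{n ∈ S | n % q ∈ R} + #{n ∈ S | Null (res A q (n % q))} = #S := by
      rw [← card_filter_add_card_filter_not (s := S) (fun n => n % q ∈ R)]
      congr 1
      congr 1
      ext n
      simp only [mem_filter, hR, mem_range, not_and, not_not]
      constructor
      · rintro ⟨h3, h4⟩; exact ⟨h3, fun _ => h4⟩
      · rintro ⟨h3, h4⟩; exact ⟨h3, h4 (Nat.mod_lt _ hq)⟩
    have h3 : (#{n ∈ S | n % q ∈ R} : ℝ) + #{n ∈ S | Null (res A q (n % q))} = #S := by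
      exact_mod_cast h2'
    linarith
  calc ((#S : ℝ) / 2) ^ 2 ≤ (#{n ∈ S | n % q ∈ R} : ℝ) ^ 2 := by gcongr
    _ ≤ #R * (cong S q : ℝ) := cong_ge S R q
    _ = _ := rfl

/-- **Sum form for chains.** -/
theorem chain_sum_le {A : Set ℕ} (hA : ¬ Null A) {K : ℝ}
    (hK : ∀ᶠ x : ℕ in atTop, ∑ n ∈ range x, (rep A n : ℝ) ^ 2 ≤ K * x) :
    ∃ C : ℝ, ∀ m : ℕ → ℕ, Chain m → ∀ J : ℕ,
      ∑ j ∈ range J, (m j : ℝ) / (nu A (m j) : ℝ) ^ 2 ≤ C := by
  classical
  set K' : ℝ := max K 1 with hK'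
  have hK0 : 0 < K' := lt_of_lt_of_le one_pos (le_max_right _ _)
  obtain ⟨δ, hδ, hfx⟩ := not_null_iff.1 hA
  refine ⟨672 * K' / δ ^ 4, fun m hm J => ?_⟩
  have hE1 : ∀ᶠ x : ℕ in atTop, ∀ j ∈ range (J + 1),
      (#{n ∈ below A x | Null (res A (m j) (n % m j))} : ℝ) ≤ δ / 2 * √x := by
    rw [Filter.eventually_all_finset]
    intro j _
    exact null_part A (hm.pos' j) (by positivity)
  have ht : Tendsto (fun x : ℕ => 2 * x) atTop atTop :=
    tendsto_atTop_mono (fun x => by show x ≤ 2 * x; omega) tendsto_id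
  obtain ⟨x, hxT, hx1, hx2, hx3, hx4⟩ := (hfx.and_eventually (hE1.and
    ((eventually_ge_atTop (m J)).and
    ((ht.eventually hK).and (eventually_ge_atTop 1))))).exists
  set S := below A x with hS
  have hSx : S ⊆ range x := below_subset_range A x
  have hxr : (1 : ℝ) ≤ x := by exact_mod_cast hx4
  have hE : ∑ n ∈ range (2 * x), (repF S n : ℝ) ^ 2 ≤ 2 * K' * x := by
    calc ∑ n ∈ range (2 * x), (repF S n : ℝ) ^ 2 ≤ ∑ n ∈ range (2 * x), (rep A n : ℝ) ^ 2 := by
          refine Finset.sum_le_sum fun n _ => ?_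
          have : (repF S n : ℝ) ≤ rep A n := by exact_mod_cast repF_below_le A x n
          gcongr
      _ ≤ K * ((2 * x : ℕ) : ℝ) := hx3
      _ ≤ K' * ((2 * x : ℕ) : ℝ) := by
          gcongr
          exact le_max_left _ _
      _ = 2 * K' * x := by push_cast; ring
  have hT2 : δ ^ 2 * x ≤ (#S : ℝ) ^ 2 := by
    have h1 : (δ * √x) ^ 2 ≤ (#S : ℝ) ^ 2 := by
      gcongr
    rwa [mul_pow, Real.sq_sqrt (by positivity)] at h1
  have hmain : (δ ^ 2 * x / 4) ^ 2 * ∑ j ∈ range (J + 1), (m j : ℝ) / (nu A (m j) : ℝ) ^ 2 ≤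
      21 * x * (2 * K' * x) := by
    refine le_trans ?_ ((chain_energy S hSx hm hx2).trans (by gcongr))
    rw [mul_sum]
    refine sum_le_sum fun j hj => ?_
    have h1 := cong_large (hm.pos' j) (hx1 j hj) hxT
    rw [← hS] at h1
    rcases Nat.eq_zero_or_pos (nu A (m j)) with h0 | h0
    · rw [h0]; simp only [Nat.cast_zero, ne_eq, OfNat.ofNat_ne_zero, not_false_eq_true, zero_pow,
        div_zero, mul_zero]; positivity
    · have h0' : (0 : ℝ) < nu A (m j) := by exact_mod_cast h0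
      have h2 : (δ ^ 2 * x / 4) ≤ (nu A (m j) : ℝ) * (cong S (m j) : ℝ) := by
        refine le_trans ?_ h1
        nlinarith
      have h3 : (δ ^ 2 * x / 4) ^ 2 ≤ ((nu A (m j) : ℝ) * (cong S (m j) : ℝ)) ^ 2 := by gcongr
      calc (δ ^ 2 * x / 4) ^ 2 * ((m j : ℝ) / (nu A (m j) : ℝ) ^ 2)
          ≤ ((nu A (m j) : ℝ) * (cong S (m j) : ℝ)) ^ 2 * ((m j : ℝ) / (nu A (m j) : ℝ) ^ 2) := by
            gcongr
        _ = _ := by field_simp
  have h4 : ∑ j ∈ range J, (m j : ℝ) / (nu A (m j) : ℝ) ^ 2 ≤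
      ∑ j ∈ range (J + 1), (m j : ℝ) / (nu A (m j) : ℝ) ^ 2 := by
    rw [sum_range_succ]
    have : 0 ≤ (m J : ℝ) / (nu A (m J) : ℝ) ^ 2 := by positivity
    linarith
  rw [le_div_iff₀ (by positivity)]
  set Sg := ∑ j ∈ range (J + 1), (m j : ℝ) / (nu A (m j) : ℝ) ^ 2 with hSg
  have h5 : (x : ℝ) ^ 2 * (Sg * δ ^ 4) ≤ (x : ℝ) ^ 2 * (672 * K') := by nlinarith
  have h6 : Sg * δ ^ 4 ≤ 672 * K' := le_of_mul_le_mul_left h5 (by positivity)
  refine le_trans ?_ h6
  gcongr

/-- **Sum form for chains**, summability. -/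
theorem chain_summable {A : Set ℕ} (hA : ¬ Null A) {K : ℝ}
    (hK : ∀ᶠ x : ℕ in atTop, ∑ n ∈ range x, (rep A n : ℝ) ^ 2 ≤ K * x) {m : ℕ → ℕ}
    (hm : Chain m) : Summable (fun j => (m j : ℝ) / (nu A (m j) : ℝ) ^ 2) := by
  obtain ⟨C, hC⟩ := chain_sum_le hA hK
  exact summable_of_sum_range_le (fun j => by positivity) (hC m hm)

theorem nu_le_classes (A : Set ℕ) {q : ℕ} (hq : 0 < q) :
    nu A q ≤ ((fun a => a % q) '' A).ncard := by
  classical
  have hfin : ((fun a => a % q) '' A).Finite :=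
    (Set.finite_lt_nat q).subset (by rintro _ ⟨a, _, rfl⟩; exact Nat.mod_lt _ hq)
  rw [Set.ncard_eq_toFinset_card _ hfin]
  unfold nu
  refine card_le_card fun r hr => ?_
  rw [mem_filter, mem_range] at hr
  rw [Set.Finite.mem_toFinset]
  by_contra hcon
  refine hr.2 ?_
  have h1 : res A q r = ∅ := by
    ext n
    simp only [Set.mem_empty_iff_false, iff_false]
    intro hn
    refine hcon ⟨q * n + r, hn, ?_⟩
    show (q * n + r) % q = r
    rw [Nat.mul_add_mod, Nat.mod_eq_of_lt hr.1]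
  rw [h1]
  intro ε hε
  refine Eventually.of_forall fun x => ?_
  have : below ∅ x = ∅ := by
    ext n; rw [mem_below]; simp
  rw [this]
  simp only [card_empty, Nat.cast_zero]
  positivity

theorem nu_pos {A : Set ℕ} (hA : ¬ Null A) {q : ℕ} (hq : 0 < q) : 0 < nu A q := by
  classical
  by_contra hcon
  have h0 : nu A q = 0 := by omega
  have hall : ∀ r < q, Null (res A q r) := by
    intro r hr
    by_contra h
    have : r ∈ ({r ∈ range q | ¬ Null (res A q r)} : Finset ℕ) :=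
      mem_filter.2 ⟨mem_range.2 hr, h⟩
    have h1 := card_pos.2 ⟨r, this⟩
    unfold nu at h0
    omega
  refine hA fun ε hε => ?_
  filter_upwards [null_part A hq hε] with x hx
  have h2 : ({n ∈ below A x | Null (res A q (n % q))} : Finset ℕ) = below A x :=
    filter_true_of_mem fun n _ => hall _ (Nat.mod_lt _ hq)
  rwa [h2] at hx

/-- the same with all classes that meet `A` -/
theorem chain_summable_classes {A : Set ℕ} (hA : ¬ Null A) {K : ℝ}
    (hK : ∀ᶠ x : ℕ in atTop, ∑ n ∈ range x, (rep A n : ℝ) ^ 2 ≤ K * x) {m : ℕ → ℕ}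
    (hm : Chain m) :
    Summable (fun j => (m j : ℝ) / (((fun a => a % m j) '' A).ncard : ℝ) ^ 2) := by
  refine Summable.of_nonneg_of_le (fun j => by positivity) (fun j => ?_) (chain_summable hA hK hm)
  have h1 : (nu A (m j) : ℝ) ≤ ((fun a => a % m j) '' A).ncard := by
    exact_mod_cast nu_le_classes A (hm.pos' j)
  have h2 : (0 : ℝ) < nu A (m j) := by exact_mod_cast nu_pos hA (hm.pos' j)
  gcongr

end Pool.Agent.Helper3.RC
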